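import Pool.Agent.Helper25_CN3.Stmts

/-! Squad CN3, module T_TIM: time orientation. -/

set_option autoImplicit false

noncomputable section

namespace Pool.Agent.CN3.H17

open Pool.Agent.H25Cong Pool.Agent.CON Pool.Agent.CN2 Pool.Agent.CN3

variable {n : ℕ}

theorem proj_perp {p v w : V n} (h : B v p ≠ 0) : B (w - (B w p / B v p) • v) p = 0 := by
  rw [B_sub_left, B_smul_left]
  field_simp
  ring

theorem proj_norm (v w : V n) (t : ℝ) :
    B (w - t • v) (w - t • v) = B w w - 2 * t * B v w + t ^ 2 * B v v := by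
  simp only [B_sub_left, B_sub_right, B_smul_left, B_smul_right, B_comm w v]
  ring

theorem tim1 {p v : V n} (hp : B p p < 0) (hv : v ≠ 0) (hvv : B v v ≤ 0) : B v p ≠ 0 := by
  intro h
  have h1 := perp_nonneg hp h
  exact hv (perp_eq_zero hp h (le_antisymm hvv h1))

/-- T_TIM. -/
theorem t_tim : T_TIM := by
  intro n p v w hp
  refine ⟨fun hv hvv => tim1 hp hv hvv, ?_, ?_, ?_⟩
  · intro hv hw hvp hwp
    have h0 := proj_perp (p := p) (w := w) hvp.ne
    have h1 := perp_nonneg hp h0
    rw [proj_norm] at h1
    have ht : 0 < B w p / B v p := div_pos_of_neg_of_neg hwp hvp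
    set t := B w p / B v p with ht'
    by_contra hcon
    push Not at hcon
    have h2 : 0 < t * B v w := mul_pos ht hcon
    have h3 : t ^ 2 * B v v ≤ 0 := mul_nonpos_of_nonneg_of_nonpos (sq_nonneg _) hv
    linarith
  · intro hv hw hvp hvw
    by_contra hcon
    push Not at hcon
    rcases hcon.eq_or_lt with h | h
    · have h1 := perp_nonneg hp h.symm
      have h2 : w = 0 := perp_eq_zero hp h.symm (le_antisymm hw h1)
      rw [h2] at hvw
      have : B v (0 : V n) = 0 := by simp [B]
      linarith
    · have h0 := proj_perp (p := p) (w := w) hvp.ne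
      have h1 := perp_nonneg hp h0
      rw [proj_norm] at h1
      have ht : B w p / B v p < 0 := div_neg_of_pos_of_neg h hvp
      set t := B w p / B v p with ht'
      have h2 : 0 < t * B v w := mul_pos_of_neg_of_neg ht hvw
      have h3 : t ^ 2 * B v v ≤ 0 := mul_nonpos_of_nonneg_of_nonpos (sq_nonneg _) hv
      linarith
  · intro hv hvv hww hvw
    have hvp := tim1 hp hv hvv.le
    have h0 := proj_perp (p := p) (w := w) hvp
    refine ⟨B w p / B v p, ?_⟩
    have h2 : B (w - (B w p / B v p) • v) (w - (B w p / B v p) • v) = 0 := by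
      rw [proj_norm, hvv, hww, hvw]; ring
    exact sub_eq_zero.1 (perp_eq_zero hp h0 h2)

end Pool.Agent.CN3.H17
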